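import Pool.Agent.N449.SR.Main3
import Pool.Agent.N449.SQ.Final

/-!
# Sparse factors of `8 d ^ 2 + 1 = 64 b ^ 2 + 9`
-/

set_option autoImplicit false
set_option maxHeartbeats 1000000

namespace Pool.Agent.N449.SR

open Finset QuadraticAlgebra Pool.Agent.N449.SQ

/-- the solutions of `d ^ 2 - 8 b ^ 2 = 1` -/
theorem pell8 (b : ℕ) : ∀ d : ℤ, 0 < d → d ^ 2 - 8 * (b : ℤ) ^ 2 = 1 →
    ∃ m : ℕ, w 2 ((2 * m : ℕ) : ℤ) = ⟨d - 2 * b, 2 * b⟩ := by
  induction b using Nat.strong_induction_on with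
  | _ b ih =>
    intro d hd h
    rcases Nat.eq_zero_or_pos b with hb | hb
    · subst hb
      have : d = 1 := by
        simp at h
        rcases h with h | h <;> omega
      refine ⟨0, ?_⟩
      rw [this, Nat.mul_zero, Nat.cast_zero, w_zero]
      ext <;> simp
    · have hbZ : (1 : ℤ) ≤ b := by exact_mod_cast hb
      have h1 : 2 * (b : ℤ) < d := by nlinarith
      have h2 : d ≤ 3 * b := by nlinarith
      have h3 : 8 * (b : ℤ) < 3 * d := by nlinarith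
      obtain ⟨b', hb'⟩ := Int.eq_ofNat_of_zero_le (a := 3 * (b : ℤ) - d) (by linarith)
      obtain ⟨m, hm⟩ := ih b' (by omega) (3 * d - 8 * b) (by linarith) (by rw [← hb']; linear_combination h)
      refine ⟨m + 1, ?_⟩
      rw [show ((2 * (m + 1) : ℕ) : ℤ) = ((2 * m : ℕ) : ℤ) + 1 + 1 by push_cast; ring, w_add, w_add, hm,
        ← hb']
      have h4 : w 2 1 = ⟨0, 1⟩ := by simp [w, wu]
      rw [h4]
      ext
      · simp; ring
      · simp; ring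

theorem final3 (b d x y : ℤ) (hbd : 64 * b ^ 2 + 9 = 8 * d ^ 2 + 1) (hxy : x * y = 8 * d ^ 2 + 1)
    (hx1 : 1 < |x|) (hy1 : 1 < |y|) (S T : Finset ℕ) (u u' v v' : ℕ → ℤ)
    (hx : x = ∑ i ∈ S, (u i * U 2 i + u' i * U 2 (i + 1)))
    (hy : y = ∑ j ∈ T, (v j * U 2 j + v' j * U 2 (j + 1))) :
    d ^ 2 ≤ (72 + 4 * (∑ i ∈ S, (|u i| + 3 * |u' i|)) *
      (∑ j ∈ T, (|v j| + 3 * |v' j|))) ^ ((8 * (T.card + 1)) ^ (S.card + 1)) := by
  have hA' : 0 ≤ ∑ i ∈ S, (|u i| + 3 * |u' i|) := Finset.sum_nonneg fun _ _ => by positivity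
  have hB' : 0 ≤ ∑ j ∈ T, (|v j| + 3 * |v' j|) := Finset.sum_nonneg fun _ _ => by positivity
  have hAB' := mul_nonneg hA' hB'
  wlog hd : 0 < d generalizing d
  · rcases eq_or_ne d 0 with h0 | h0
    · subst h0
      have h8 : 8 * b ^ 2 = -1 := by linarith
      omega
    · have := this (-d) (by rw [neg_sq]; exact hbd) (by rw [neg_sq]; exact hxy) (by omega)
      rwa [neg_sq] at this
  by_contra hcon
  push Not at hcon
  have hdom := isDomain (a := 2) (by norm_num)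
  obtain ⟨m, hm⟩ := pell8 b.natAbs d hd (by rw [Int.natCast_natAbs, sq_abs]; linarith)
  set c : ℤ := (b.natAbs : ℤ) with hc
  have hc0 : 0 ≤ c := by positivity
  have hm0 : 0 < m := by
    rcases Nat.eq_zero_or_pos m with h0 | h0
    · exfalso
      rw [h0, Nat.mul_zero, Nat.cast_zero, w_zero] at hm
      have h1 := congrArg QuadraticAlgebra.re hm
      have h2 := congrArg QuadraticAlgebra.im hm
      simp at h1 h2
      have h3 : d = 1 := by omega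
      rw [h3] at hcon
      have : 1 ≤ (72 + 4 * (∑ i ∈ S, (|u i| + 3 * |u' i|)) *
        (∑ j ∈ T, (|v j| + 3 * |v' j|))) ^ ((8 * (T.card + 1)) ^ (S.card + 1)) :=
        one_le_pow₀ (by nlinarith)
      linarith
    · exact h0
  -- the powers of the unit
  have hws : star (w 2 ((2 * m : ℕ) : ℤ)) = w 2 (-((2 * m : ℕ) : ℤ)) := by
    have := star_w 2 (2 * m)
    rwa [Even.neg_one_pow (even_two_mul m), one_mul] at this
  have hsum : w 2 ((2 * m : ℕ) : ℤ) + w 2 (-((2 * m : ℕ) : ℤ)) = ((2 * d : ℤ) : R 2) := by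
    rw [← hws, hm]
    ext
    · simp; ring
    · simp
  have hsq : w 2 ((4 * m : ℕ) : ℤ) + 2 + w 2 (-((4 * m : ℕ) : ℤ)) = ((4 * d ^ 2 : ℤ) : R 2) := by
    have e1 : w 2 ((4 * m : ℕ) : ℤ) = w 2 ((2 * m : ℕ) : ℤ) * w 2 ((2 * m : ℕ) : ℤ) := by
      rw [← w_add]; congr 1; push_cast; ring
    have e2 : w 2 (-((4 * m : ℕ) : ℤ)) = w 2 (-((2 * m : ℕ) : ℤ)) * w 2 (-((2 * m : ℕ) : ℤ)) := by
      rw [← w_add]; congr 1; push_cast; ring
    have e3 : w 2 ((2 * m : ℕ) : ℤ) * w 2 (-((2 * m : ℕ) : ℤ)) = 1 := by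
      rw [← w_add]; simp [w_zero]
    have e4 : (w 2 ((2 * m : ℕ) : ℤ) + w 2 (-((2 * m : ℕ) : ℤ))) ^ 2 = ((2 * d : ℤ) : R 2) ^ 2 := by
      rw [hsum]
    rw [e1, e2]
    have e5 : ((4 * d ^ 2 : ℤ) : R 2) = ((2 * d : ℤ) : R 2) ^ 2 := by push_cast; ring
    rw [e5]
    linear_combination e4 - 2 * e3
  have hdl2 : dl 2 * dl 2 = 8 := by
    ext
    · simp [dl]
    · simp [dl]
  have hW : dl 2 * dl 2 * ((8 * d ^ 2 + 1 : ℤ) : R 2)
      = 16 * w 2 ((4 * m : ℕ) : ℤ) + 40 + 16 * w 2 (-((4 * m : ℕ) : ℤ)) := by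
    rw [hdl2]
    push_cast at hsq ⊢
    linear_combination (-16 : R 2) * hsq
  have hA : ∑ i ∈ S, hs 2 ⟨u i, u' i⟩ ≤ ((∑ i ∈ S, (|u i| + 3 * |u' i|) : ℤ) : ℝ) := by
    rw [Int.cast_sum]
    refine Finset.sum_le_sum fun i _ => ?_
    have := hs_pair (a := 2) (by norm_num) (u i) (u' i)
    norm_num at this ⊢
    exact this
  have hB : ∑ i ∈ T, hs 2 ⟨v i, v' i⟩ ≤ ((∑ i ∈ T, (|v i| + 3 * |v' i|) : ℤ) : ℝ) := by
    rw [Int.cast_sum]
    refine Finset.sum_le_sum fun i _ => ?_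
    have := hs_pair (a := 2) (by norm_num) (v i) (v' i)
    norm_num at this ⊢
    exact this
  have hA0 : 0 ≤ ∑ i ∈ S, hs 2 ⟨u i, u' i⟩ := Finset.sum_nonneg fun _ _ => hs_nonneg _ _
  have hB0 : 0 ≤ ∑ i ∈ T, hs 2 ⟨v i, v' i⟩ := Finset.sum_nonneg fun _ _ => hs_nonneg _ _
  have hAB := mul_le_mul hA hB hB0 (hA0.trans hA)
  have hAB0 : 0 ≤ (∑ i ∈ S, hs 2 ⟨u i, u' i⟩) * (∑ i ∈ T, hs 2 ⟨v i, v' i⟩) := mul_nonneg hA0 hB0
  have he3 := eps_lt (a := 2) (by norm_num)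
  have h16 : hs 2 (16 : R 2) = 16 := by simp [hs, map_ofNat]
  have h40 : hs 2 (40 : R 2) = 40 := by simp [hs, map_ofNat]
  have hpow : (d : ℝ) ^ 2 ≤ eps 2 ^ (4 * m) := by
    have h1 : eps 2 ^ (2 * m) = (d : ℝ) + c * (2 * eps 2 - 2) := by
      have := s₁_w 2 ((2 * m : ℕ) : ℤ)
      rw [hm, s₁_apply, zpow_natCast] at this
      rw [← this]
      push_cast
      ring
    have h2 : (d : ℝ) ≤ eps 2 ^ (2 * m) := by
      rw [h1]
      have := one_lt_eps (a := 2) (by norm_num)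
      have h3 : (0 : ℝ) ≤ c := by exact_mod_cast hc0
      nlinarith
    have h3 : (0 : ℝ) ≤ d := by exact_mod_cast hd.le
    calc (d : ℝ) ^ 2 ≤ (eps 2 ^ (2 * m)) ^ 2 := pow_le_pow_left₀ h3 h2 2
      _ = eps 2 ^ (4 * m) := by rw [← pow_mul]; congr 1; ring
  have hmain := main3 (a := 2) (by norm_num) (4 * m) (by omega) (8 * d ^ 2 + 1) x y hxy
    (by rintro rfl; simp at hx1) 16 40 16
    (fun q M hq hqM D E hDd hEd hD hE hDE => sym3 m q M hq hqM D E hDd hEd hD hE (by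
      have e1 : ((4 * m : ℕ) : ℤ) = 4 * m := by push_cast; ring
      rw [e1] at hDE
      exact hDE))
    hW S T (fun i => ⟨u i, u' i⟩) (fun i => ⟨v i, v' i⟩)
    (by rw [hx]; exact Finset.sum_congr rfl fun i _ => (mul_w_im 2 _ _ i).symm)
    (by rw [hy]; exact Finset.sum_congr rfl fun i _ => (mul_w_im 2 _ _ i).symm)
    (((72 + 4 * (∑ i ∈ S, (|u i| + 3 * |u' i|)) * (∑ j ∈ T, (|v j| + 3 * |v' j|)) : ℤ) : ℝ))
    (by
      rw [h16, h40]
      push_cast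
      push_cast at hAB
      nlinarith)
    (by
      have : (0 : ℝ) ≤ ((∑ i ∈ S, (|u i| + 3 * |u' i|)) * (∑ j ∈ T, (|v j| + 3 * |v' j|)) : ℤ) := by
        exact_mod_cast hAB'
      push_cast at he3 this ⊢
      nlinarith)
    (by
      refine lt_of_lt_of_le ?_ hpow
      exact_mod_cast hcon)
  have hlast : ∀ z z' : ℤ, z * z' = 8 * d ^ 2 + 1 → 1 < |z| →
      (z : R 2) * dl 2 ∣ 16 → (z : R 2) * dl 2 ∣ 40 → False := by
    intro z z' hz hz1 h1 h2
    have h3 : (z : R 2) * dl 2 ∣ 8 := by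
      have := dvd_sub h2 (Dvd.dvd.mul_left h1 2)
      norm_num at this
      exact this
    obtain ⟨g, hg⟩ := h3
    have h4 := congrArg QuadraticAlgebra.norm hg
    have e1 : QuadraticAlgebra.norm (8 : R 2) = 64 := by
      rw [norm_def]; simp
    have e2 : QuadraticAlgebra.norm (dl 2) = -8 := by
      rw [norm_def]; simp [dl]
    rw [map_mul, map_mul, e1, e2, norm_intCast, Int.cast_id] at h4
    have h5 : z ^ 2 ∣ 8 := by
      refine ⟨-QuadraticAlgebra.norm g, ?_⟩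
      linarith
    have h6 : z ^ 2 ≤ 8 := Int.le_of_dvd (by norm_num) h5
    have h7 : |z| < 3 := by
      rw [← sq_abs] at h6
      nlinarith [abs_nonneg z]
    have h8 : |z| = 2 := by omega
    have h9 : (2 : ℤ) ∣ z := (dvd_abs _ _).1 (by rw [h8])
    have h10 : (2 : ℤ) ∣ 8 * d ^ 2 + 1 := by rw [← hz]; exact Dvd.dvd.mul_right h9 _
    omega
  rcases hmain with ⟨h1, h2⟩ | ⟨h1, h2⟩
  · exact hlast x y hxy hx1 h1 h2
  · exact hlast y x (by rw [mul_comm, hxy]) hy1 h1 h2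

end Pool.Agent.N449.SR
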