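import Pool.Agent.N449.SQ.Main

/-!
# Factors of `2 u X ^ q + 1` over `ℚ(√2)`, `u = (1 + √2) ^ (4 m)`
-/

set_option autoImplicit false
set_option maxHeartbeats 1000000

namespace Pool.Agent.N449.SR

open Polynomial QuadraticAlgebra Pool.Agent.N449.SQ

/-- the field `ℚ(√2)`, with generator `ω = 1 + √2` -/
abbrev K := QuadraticAlgebra ℚ 1 2

instance instFactK : Fact (∀ r : ℚ, r ^ 2 ≠ 1 + 2 * r) := ⟨by
  intro r h
  have h1 : (r - 1) ^ 2 = 2 := by linear_combination h
  have h2 : ((r - 1 : ℚ) : ℝ) ^ 2 = 2 := by exact_mod_cast h1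
  have h3 : |((r - 1 : ℚ) : ℝ)| = √2 := by
    rw [← h2, Real.sqrt_sq_eq_abs]
  apply irrational_sqrt_two
  refine ⟨|r - 1|, ?_⟩
  rw [← h3]
  push_cast
  rfl⟩

/-- first embedding -/
noncomputable def t₁ : K →+* ℝ where
  toFun z := z.re + z.im * eps 2
  map_one' := by simp
  map_mul' z w := by
    have := eps_sq 2
    simp
    push_cast at this
    linear_combination (-(z.im : ℝ) * w.im) * this
  map_zero' := by simp
  map_add' z w := by simp; ring

/-- second embedding -/
noncomputable def t₂ : K →+* ℝ where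
  toFun z := z.re + z.im * eps' 2
  map_one' := by simp
  map_mul' z w := by
    have := eps'_sq 2
    simp
    push_cast at this
    linear_combination (-(z.im : ℝ) * w.im) * this
  map_zero' := by simp
  map_add' z w := by simp; ring

theorem t₁_apply (z : K) : t₁ z = z.re + z.im * eps 2 := rfl
theorem t₂_apply (z : K) : t₂ z = z.re + z.im * eps' 2 := rfl

theorem norm_t (z : K) : ((norm z : ℚ) : ℝ) = t₁ z * t₂ z := by
  rw [t₁_apply, t₂_apply, norm_def]
  have h1 := eps_add 2
  have h2 := eps_mul 2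
  push_cast at *
  linear_combination (-(z.re : ℝ) * z.im) * h1 - ((z.im : ℝ) ^ 2) * h2

/-- inclusion -/
def inc : R 2 →+* K where
  toFun z := ⟨z.re, z.im⟩
  map_one' := by ext <;> simp
  map_mul' z w := by ext <;> simp
  map_zero' := by ext <;> simp
  map_add' z w := by ext <;> simp

theorem inc_re (z : R 2) : (inc z).re = z.re := rfl
theorem inc_im (z : R 2) : (inc z).im = z.im := rfl

theorem inc_inj : Function.Injective inc := by
  intro z w h
  have h1 := congrArg QuadraticAlgebra.re h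
  have h2 := congrArg QuadraticAlgebra.im h
  rw [inc_re, inc_re] at h1
  rw [inc_im, inc_im] at h2
  ext
  · exact_mod_cast h1
  · exact_mod_cast h2

theorem t₁_inc (z : R 2) : t₁ (inc z) = s₁ 2 z := by
  rw [t₁_apply, s₁_apply, inc_re, inc_im]; push_cast; rfl

theorem t₂_inc (z : R 2) : t₂ (inc z) = s₂ 2 z := by
  rw [t₂_apply, s₂_apply, inc_re, inc_im]; push_cast; rfl

theorem inc_star (z : R 2) : inc (star z) = star (inc z) := by
  ext
  · rw [inc_re, re_star, re_star, inc_re, inc_im]; push_cast; rfl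
  · rw [inc_im, im_star, im_star, inc_im]; push_cast; rfl

theorem eps'_pow_even (m : ℤ) : eps' 2 ^ (2 * m) = eps 2 ^ (-(2 * m)) := by
  rw [eps'_eq, Even.neg_zpow (even_two_mul m), inv_zpow, zpow_neg]

theorem pos_coeff (G : ℝ[X]) (hG : G.Monic) (c : ℝ) (hc : 0 < c) (k : ℕ)
    (hdvd : G ∣ X ^ (2 * k) + C c) : 0 < G.coeff 0 := by
  by_contra h
  push Not at h
  rcases Nat.eq_zero_or_pos G.natDegree with h0 | h0
  · rw [hG.natDegree_eq_zero.1 h0] at h
    simp at h
    linarith
  have h1 := Polynomial.tendsto_atTop_of_leadingCoeff_nonneg G (natDegree_pos_iff_degree_pos.1 h0)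
    (by rw [hG.leadingCoeff]; norm_num)
  obtain ⟨x, hx⟩ := (h1.eventually (Filter.eventually_ge_atTop 0)).exists
  obtain ⟨z, hz⟩ := mem_range_of_exists_le_of_exists_ge (c := 0) G.continuous
    ⟨0, by rw [← coeff_zero_eq_eval_zero]; exact h⟩ ⟨x, hx⟩
  obtain ⟨Q, hQ⟩ := hdvd
  have h2 := congrArg (eval z) hQ
  rw [eval_mul] at h2
  simp only [] at hz
  rw [hz, zero_mul] at h2
  simp at h2
  have : 0 ≤ z ^ (2 * k) := by rw [pow_mul]; positivity
  linarith

theorem inv3 {x y : ℝ} (hy : y ≠ 0) : x = y⁻¹ ↔ x * y = 1 := by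
  constructor
  · rintro rfl; exact inv_mul_cancel₀ hy
  · intro h; field_simp; exact h

theorem irr (m : ℤ) (q : ℕ) (hq : 0 < q) (c : K) (hc : 2 * c * inc (w 2 (4 * m)) = 1) :
    Irreducible (X ^ q + C c : K[X]) := by
  have he0 := eps_pos 2
  have hmon : (X ^ q + C c : K[X]).Monic := monic_X_pow_add_C c hq.ne'
  -- values of c
  have hc1 : t₁ c = (2 * eps 2 ^ (4 * m))⁻¹ := by
    have := congrArg t₁ hc
    rw [map_mul, map_mul, map_one, t₁_inc, s₁_w, map_ofNat] at this
    rw [inv3 (by positivity)]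
    linarith
  have hc2 : t₂ c = (2 * eps 2 ^ (-(4 * m)))⁻¹ := by
    have := congrArg t₂ hc
    rw [map_mul, map_mul, map_one, t₂_inc, s₂_w, map_ofNat, show 4 * m = 2 * (2 * m) by ring,
      eps'_pow_even] at this
    rw [inv3 (by positivity), show 4 * m = 2 * (2 * m) by ring]
    linarith
  have hc1p : 0 < t₁ c := by rw [hc1]; positivity
  have hc2p : 0 < t₂ c := by rw [hc2]; positivity
  have hcn : t₁ c * t₂ c = 1 / 4 := by
    rw [hc1, hc2, ← mul_inv]
    have : 2 * eps 2 ^ (4 * m) * (2 * eps 2 ^ (-(4 * m))) = 4 := by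
      rw [show 2 * eps 2 ^ (4 * m) * (2 * eps 2 ^ (-(4 * m))) = 4 * (eps 2 ^ (4 * m) * eps 2 ^ (-(4 * m))) by ring,
        ← zpow_add₀ he0.ne']
      simp
    rw [this]; norm_num
  rw [hmon.irreducible_iff_natDegree']
  refine ⟨?_, ?_⟩
  · intro h
    have := congrArg natDegree h
    rw [natDegree_X_pow_add_C, natDegree_one] at this
    omega
  intro f g hf hg hfg hmem
  rw [natDegree_X_pow_add_C, Finset.mem_Ioc] at hmem
  obtain ⟨hk0, hk2⟩ := hmem
  set k := g.natDegree with hk
  set ρ := g.coeff 0 with hρ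
  have hroot : ∀ t : K →+* ℝ, 0 < t c → |t ρ| ^ q = t c ^ k := by
    intro t htc
    let F : K →+* ℂ := Complex.ofRealHom.comp t
    have hF : ∀ z, ‖F z‖ = |t z| := fun z => by simp [F]
    have hd : g.map F ∣ C 1 * X ^ q + C (F c) := by
      refine ⟨f.map F, ?_⟩
      rw [← Polynomial.map_mul, mul_comm g f, hfg]
      simp
    have hFc : F c ≠ 0 := by
      intro h0
      have := hF c
      rw [h0, _root_.norm_zero] at this
      have := abs_eq_zero.1 this.symm
      linarith
    have := root_prod 1 (F c) one_ne_zero hFc q hq _ hd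
    rw [coeff_map, (hg.map F).leadingCoeff, hg.natDegree_map, hF, hF, NormOneClass.norm_one, one_pow, one_pow,
      mul_one, one_mul, abs_of_pos htc] at this
    exact this
  have h1 := hroot t₁ hc1p
  have h2 := hroot t₂ hc2p
  have h3 : (|norm ρ| : ℚ) ^ q = (1 / 4) ^ k := by
    have : ((|norm ρ| : ℚ) : ℝ) ^ q = (1 / 4) ^ k := by
      push_cast
      rw [norm_t, abs_mul, mul_pow, h1, h2, ← mul_pow, hcn]
    have h4 : (((|norm ρ| : ℚ) ^ q : ℚ) : ℝ) = (((1 / 4) ^ k : ℚ) : ℝ) := by
      rw [Rat.cast_pow, this]; push_cast; rfl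
    exact Rat.cast_injective h4
  have hr0 : (|norm ρ| : ℚ) ≠ 0 := by
    intro h0
    rw [h0, zero_pow hq.ne'] at h3
    have : (0 : ℚ) < (1 / 4) ^ k := by positivity
    linarith
  have h4 : (q : ℤ) * padicValRat 2 |norm ρ| = -(2 * k) := by
    have h5 := congrArg (padicValRat 2) h3
    rw [padicValRat.pow, show (1 / 4 : ℚ) = ((2 : ℚ) ^ 2)⁻¹ by norm_num, padicValRat.pow,
      padicValRat.inv, padicValRat.pow] at h5
    have h6 : padicValRat 2 (2 : ℚ) = 1 := by
      have := padicValRat.self (p := 2) (by norm_num)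
      simpa using this
    rw [h6] at h5
    push_cast at h5
    linarith
  have hqk : q = 2 * k := by
    have h5 : padicValRat 2 |norm ρ| < 0 := by
      by_contra hcc
      push Not at hcc
      have : 0 ≤ (q : ℤ) * padicValRat 2 |norm ρ| := by positivity
      have : (0 : ℤ) < k := by exact_mod_cast hk0
      linarith
    have h6 : padicValRat 2 |norm ρ| ≤ -1 := by omega
    have h7 : (q : ℤ) * padicValRat 2 |norm ρ| ≤ q * (-1) :=
      mul_le_mul_of_nonneg_left h6 (by positivity)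
    have : (q : ℤ) ≤ 2 * k := by linarith
    omega
  have h5 : t₁ ρ ^ 2 = t₁ c := by
    rw [hqk, pow_mul, sq_abs] at h1
    exact (pow_left_inj₀ (sq_nonneg _) hc1p.le hk0.ne').1 h1
  have h6 : ρ ^ 2 = c := t₁.injective (by rw [map_pow, h5])
  have h7 : (2 * (ρ * inc (w 2 (2 * m)))) ^ 2 = (⟨-1, 1⟩ : K) ^ 2 := by
    have e1 : inc (w 2 (2 * m)) ^ 2 = inc (w 2 (4 * m)) := by
      rw [pow_two, ← map_mul, ← w_add]
      congr 2
      ring
    have e2 : (⟨-1, 1⟩ : K) ^ 2 = 2 := by
      rw [pow_two]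
      ext
      · simp; norm_num
      · simp; norm_num
    rw [e2, mul_pow, mul_pow, e1, h6]
    linear_combination 2 * hc
  have h8 : norm (inc (w 2 (2 * m))) = 1 := by
    have : ((norm (inc (w 2 (2 * m))) : ℚ) : ℝ) = 1 := by
      rw [norm_t, t₁_inc, t₂_inc, s₁_w, s₂_w, eps'_pow_even, ← zpow_add₀ he0.ne']
      simp
    exact_mod_cast this
  have h9 : norm ρ = -1 / 2 := by
    have e1 : norm (2 : K) = 4 := by
      rw [norm_def]; simp; norm_num
    have e2 : norm (⟨-1, 1⟩ : K) = -2 := by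
      rw [norm_def]; norm_num
    rcases sq_eq_sq_iff_eq_or_eq_neg.1 h7 with h | h
    · have := congrArg QuadraticAlgebra.norm h
      rw [map_mul, map_mul, h8, e1, e2] at this
      linarith
    · have := congrArg QuadraticAlgebra.norm h
      rw [map_mul, map_mul, h8, e1, QuadraticAlgebra.norm_neg, e2] at this
      linarith
  have hpos : ∀ t : K →+* ℝ, 0 < t c → 0 < t ρ := by
    intro t htc
    have := pos_coeff (g.map t) (hg.map t) (t c) htc k (by
      refine ⟨f.map t, ?_⟩
      rw [← Polynomial.map_mul, mul_comm g f, hfg, ← hqk]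
      simp)
    rwa [coeff_map] at this
  have h10 : (0 : ℝ) < ((norm ρ : ℚ) : ℝ) := by
    rw [norm_t]
    exact mul_pos (hpos t₁ hc1p) (hpos t₂ hc2p)
  rw [h9] at h10
  norm_num at h10

end Pool.Agent.N449.SR
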