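import Pool.Agent.N449.SR.Irr3

/-!
# Antisymmetric factors of `16 u X ^ (2 q) + 40 X ^ q + 16 u⁻¹`
-/

set_option autoImplicit false
set_option maxHeartbeats 1000000

namespace Pool.Agent.N449.SR

open Polynomial QuadraticAlgebra Pool.Agent.N449.SQ

theorem key (m : ℤ) (q M : ℕ) (hq : 0 < q) (hqM : q ≤ M)
    (D E : (R 2)[X]) (hDd : D.natDegree ≤ 2 * M)
    (hD : ∀ k ≤ 2 * M, star (D.coeff k) = -D.coeff (2 * M - k))
    (hE : ∀ k ≤ 2 * M, star (E.coeff k) = -E.coeff (2 * M - k))
    (hDE : D * E = C (16 * w 2 (4 * m)) * X ^ (2 * M + q) + C 40 * X ^ (2 * M)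
      + C (16 * w 2 (-(4 * m))) * X ^ (2 * M - q))
    (c : K) (hc : 2 * c * inc (w 2 (4 * m)) = 1)
    (hdvd : (X ^ q + C c : K[X]) ∣ D.map inc) : ∃ z, E = C z * X ^ M := by
  set u : K := inc (w 2 (4 * m)) with hu
  set u' : K := inc (w 2 (-(4 * m))) with hu'
  have huu : u * u' = 1 := by rw [hu, hu', ← map_mul, ← w_add]; simp [w_zero]
  have hu0 : u ≠ 0 := left_ne_zero_of_mul_eq_one huu
  have hc' : c = u' / 2 := by
    have : c * (u * u') = u' / 2 := by linear_combination (u' / 2) * hc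
    rwa [huu, mul_one] at this
  have hsu : star u' = u := by
    have h1 := star_w 2 (4 * m).natAbs
    rcases le_total 0 m with hm | hm
    · have e1 : (((4 * m).natAbs : ℕ) : ℤ) = 4 * m := by omega
      have e2 : (-1 : R 2) ^ (4 * m).natAbs = 1 := by
        rw [Even.neg_one_pow]
        exact ⟨2 * m.natAbs, by omega⟩
      rw [e1, e2, one_mul] at h1
      rw [hu, hu', ← inc_star, ← h1, star_star]
    · have e1 : (((4 * m).natAbs : ℕ) : ℤ) = -(4 * m) := by omega
      have e2 : (-1 : R 2) ^ (4 * m).natAbs = 1 := by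
        rw [Even.neg_one_pow]
        exact ⟨2 * m.natAbs, by omega⟩
      rw [e1, e2, one_mul, neg_neg] at h1
      rw [hu, hu', ← inc_star, h1]
  have hDE1 : D.map inc * E.map inc
      = C (16 * u) * X ^ (2 * M - q) * ((X ^ q + C c) * (X ^ q + C (2 * u'))) := by
    have e0 : D.map inc * E.map inc = C (16 * u) * (X ^ (2 * M - q) * (X ^ q * X ^ q))
        + C 40 * (X ^ (2 * M - q) * X ^ q) + C (16 * u') * X ^ (2 * M - q) := by
      rw [← Polynomial.map_mul, hDE, Polynomial.map_add, Polynomial.map_add, Polynomial.map_mul,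
        Polynomial.map_mul, Polynomial.map_mul, Polynomial.map_C, Polynomial.map_C, Polynomial.map_C,
        Polynomial.map_pow, Polynomial.map_pow, Polynomial.map_pow, Polynomial.map_X, map_mul inc,
        map_mul inc, map_ofNat, map_ofNat, ← hu, ← hu', ← pow_add, ← pow_add, ← pow_add,
        show 2 * M - q + (q + q) = 2 * M + q by omega, show 2 * M - q + q = 2 * M by omega]
    have e2 : C (16 * u) * C c = (C 8 : K[X]) := by
      rw [← Polynomial.C_mul]; congr 1; linear_combination 8 * hc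
    have e3 : C (16 * u) * C (2 * u') = (C 32 : K[X]) := by
      rw [← Polynomial.C_mul]; congr 1; linear_combination 32 * huu
    have e4 : C (16 * u) * (C c * C (2 * u')) = (C (16 * u') : K[X]) := by
      rw [← Polynomial.C_mul, ← Polynomial.C_mul]; congr 1
      rw [hc']
      linear_combination 16 * u' * huu
    have e7 : (C (40 : K) : K[X]) = C 8 + C 32 := by rw [← Polynomial.C_add]; congr 1; norm_num
    rw [e0]
    linear_combination (X ^ (2 * M - q) * X ^ q) * e7 - (X ^ (2 * M - q) * X ^ q) * e2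
      - (X ^ (2 * M - q) * X ^ q) * e3 - X ^ (2 * M - q) * e4
  have hD0 : D.map inc ≠ 0 := by
    intro h0
    rw [h0, zero_mul] at hDE1
    have h1 : (C (16 * u) * X ^ (2 * M - q) * ((X ^ q + C c) * (X ^ q + C (2 * u'))) : K[X]) ≠ 0 := by
      refine mul_ne_zero (mul_ne_zero ?_ (pow_ne_zero _ X_ne_zero)) (mul_ne_zero ?_ ?_)
      · rw [Ne, Polynomial.C_eq_zero]
        exact mul_ne_zero (by norm_num) hu0
      · exact X_pow_add_C_ne_zero hq _
      · exact X_pow_add_C_ne_zero hq _
    exact h1 hDE1.symm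
  obtain ⟨G, hG⟩ := hdvd
  have hG0 : G ≠ 0 := by rintro rfl; rw [mul_zero] at hG; exact hD0 hG
  have hGd : G.natDegree ≤ 2 * M - q := by
    have h1 := congrArg natDegree hG
    rw [natDegree_mul (X_pow_add_C_ne_zero hq _) hG0, natDegree_X_pow_add_C,
      natDegree_map_eq_of_injective inc_inj] at h1
    omega
  -- the second factor, by symmetry
  have hrefl : reflect (2 * M) ((D.map inc).map (starRingEnd K)) = -D.map inc := by
    ext1 k
    rw [coeff_reflect, coeff_map, coeff_map, coeff_neg, coeff_map]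
    by_cases hk : k ≤ 2 * M
    · rw [revAt_le hk]
      have := hD (2 * M - k) (by omega)
      rw [show 2 * M - (2 * M - k) = k by omega] at this
      rw [starRingEnd_apply, ← inc_star, this, map_neg]
    · rw [revAt_eq_self_of_lt (by omega), coeff_eq_zero_of_natDegree_lt (by omega), map_zero, map_zero,
        neg_zero]
  have hrefl2 : reflect (2 * M) ((D.map inc).map (starRingEnd K))
      = (C (u / 2) * (X ^ q + C (2 * u'))) * reflect (2 * M - q) (G.map (starRingEnd K)) := by
    rw [hG, Polynomial.map_mul]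
    have h1 := reflect_mul ((X ^ q + C c : K[X]).map (starRingEnd K)) (G.map (starRingEnd K))
      (F := q) (G := 2 * M - q) (by simp [natDegree_X_pow_add_C]) (natDegree_map_le.trans hGd)
    rw [show q + (2 * M - q) = 2 * M by omega] at h1
    rw [h1]
    congr 1
    have hsc : starRingEnd K c = u / 2 := by
      rw [starRingEnd_apply, hc', div_eq_mul_inv, star_mul', hsu, div_eq_mul_inv]
      congr 1
      rw [star_inv₀]
      congr 1
      ext <;> simp
    rw [Polynomial.map_add, Polynomial.map_pow, Polynomial.map_X, Polynomial.map_C, hsc]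
    have e1 : C (u / 2) * C (2 * u') = (1 : K[X]) := by
      rw [← Polynomial.C_mul, ← Polynomial.C_1]
      congr 1
      linear_combination huu
    rw [reflect_add, reflect_monomial, reflect_C, revAt_le le_rfl, Nat.sub_self, pow_zero]
    linear_combination -e1
  have hdvd2 : (X ^ q + C (2 * u') : K[X]) ∣ D.map inc := by
    rw [← dvd_neg, ← hrefl, hrefl2]
    exact Dvd.dvd.mul_right (Dvd.intro_left _ rfl) _
  have hcop : IsCoprime (X ^ q + C c : K[X]) (X ^ q + C (2 * u')) := by
    have hu'0 : u' ≠ 0 := right_ne_zero_of_mul_eq_one huu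
    have h1 : 2 * u' - c ≠ 0 := by
      rw [hc', show 2 * u' - u' / 2 = (3 / 2) * u' by ring]
      exact mul_ne_zero (by norm_num) hu'0
    have h2 : C (2 * u' - c)⁻¹ * (C (2 * u') - C c) = (1 : K[X]) := by
      rw [← Polynomial.C_sub, ← Polynomial.C_mul, inv_mul_cancel₀ h1, Polynomial.C_1]
    exact ⟨-C (2 * u' - c)⁻¹, C (2 * u' - c)⁻¹, by linear_combination h2⟩
  obtain ⟨G₂, hG₂⟩ := hcop.mul_dvd (Dvd.intro _ hG.symm) hdvd2
  have hE1 : G₂ * E.map inc = C (16 * u) * X ^ (2 * M - q) := by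
    have hP : ((X ^ q + C c) * (X ^ q + C (2 * u')) : K[X]) ≠ 0 :=
      mul_ne_zero (X_pow_add_C_ne_zero hq _) (X_pow_add_C_ne_zero hq _)
    apply mul_left_cancel₀ hP
    rw [← mul_assoc, ← hG₂, hDE1]
    ring
  have hE2 : E.map inc ∣ X ^ (2 * M - q) := by
    refine ⟨C (16 * u)⁻¹ * G₂, ?_⟩
    have e1 : C (16 * u)⁻¹ * C (16 * u) = (1 : K[X]) := by
      rw [← Polynomial.C_mul, inv_mul_cancel₀ (mul_ne_zero (by norm_num) hu0), Polynomial.C_1]
    linear_combination (-C (16 * u)⁻¹) * hE1 - X ^ (2 * M - q) * e1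
  obtain ⟨i, hi, hi2⟩ := (dvd_prime_pow Polynomial.prime_X _).1 hE2
  obtain ⟨v, hv⟩ := hi2.symm
  obtain ⟨r, hr, hrv⟩ := Polynomial.isUnit_iff.1 v.isUnit
  have hcoe : ∀ k, inc (E.coeff k) = if k = i then r else 0 := by
    intro k
    rw [← coeff_map, ← hv, ← hrv, mul_comm, coeff_C_mul, coeff_X_pow]
    split_ifs <;> simp
  have hEi : E.coeff i ≠ 0 := by
    intro h0
    have := hcoe i
    rw [h0, map_zero, if_pos rfl] at this
    exact hr.ne_zero this.symm
  have hEk : ∀ k, k ≠ i → E.coeff k = 0 := by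
    intro k hk
    have := hcoe k
    rw [if_neg hk] at this
    exact inc_inj (by rw [this, map_zero])
  have hiM : i = M := by
    have h1 := hE i (by omega)
    have h2 : E.coeff (2 * M - i) ≠ 0 := by
      intro h0
      rw [h0, neg_zero, star_eq_zero] at h1
      exact hEi h1
    by_contra hne
    exact h2 (hEk _ (by omega))
  refine ⟨E.coeff M, ?_⟩
  ext1 k
  rw [coeff_C_mul, coeff_X_pow]
  by_cases hk : k = M
  · rw [if_pos hk, mul_one, hk]
  · rw [if_neg hk, mul_zero]
    exact hEk k (by rw [hiM]; exact hk)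

/-- antisymmetric factors -/
theorem sym3 (m : ℤ) (q M : ℕ) (hq : 0 < q) (hqM : q ≤ M)
    (D E : (R 2)[X]) (hDd : D.natDegree ≤ 2 * M) (hEd : E.natDegree ≤ 2 * M)
    (hD : ∀ k ≤ 2 * M, star (D.coeff k) = -D.coeff (2 * M - k))
    (hE : ∀ k ≤ 2 * M, star (E.coeff k) = -E.coeff (2 * M - k))
    (hDE : D * E = C (16 * w 2 (4 * m)) * X ^ (2 * M + q) + C 40 * X ^ (2 * M)
      + C (16 * w 2 (-(4 * m))) * X ^ (2 * M - q)) :
    (∃ z, D = C z * X ^ M) ∨ (∃ z, E = C z * X ^ M) := by
  have hu0 : inc (w 2 (4 * m)) ≠ 0 := by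
    rw [Ne, map_eq_zero_iff _ inc_inj]
    exact w_ne_zero 2 _
  obtain ⟨c, hc⟩ : ∃ c : K, 2 * c * inc (w 2 (4 * m)) = 1 :=
    ⟨(2 * inc (w 2 (4 * m)))⁻¹, by
      have := mul_inv_cancel₀ (mul_ne_zero (two_ne_zero : (2 : K) ≠ 0) hu0)
      linear_combination this⟩
  have hirr := (irr m q hq c hc).prime
  have hdvd : (X ^ q + C c : K[X]) ∣ D.map inc * E.map inc := by
    have huu : inc (w 2 (4 * m)) * inc (w 2 (-(4 * m))) = 1 := by
      rw [← map_mul, ← w_add]; simp [w_zero]
    have e0 : D.map inc * E.map inc = C (16 * inc (w 2 (4 * m))) * (X ^ (2 * M - q) * (X ^ q * X ^ q))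
        + C 40 * (X ^ (2 * M - q) * X ^ q) + C (16 * inc (w 2 (-(4 * m)))) * X ^ (2 * M - q) := by
      rw [← Polynomial.map_mul, hDE, Polynomial.map_add, Polynomial.map_add, Polynomial.map_mul,
        Polynomial.map_mul, Polynomial.map_mul, Polynomial.map_C, Polynomial.map_C, Polynomial.map_C,
        Polynomial.map_pow, Polynomial.map_pow, Polynomial.map_pow, Polynomial.map_X, map_mul inc,
        map_mul inc, map_ofNat, map_ofNat, ← pow_add, ← pow_add, ← pow_add,
        show 2 * M - q + (q + q) = 2 * M + q by omega, show 2 * M - q + q = 2 * M by omega]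
    set u : K := inc (w 2 (4 * m)) with hu
    set u' : K := inc (w 2 (-(4 * m))) with hu'
    have hc' : c = u' / 2 := by
      have : c * (u * u') = u' / 2 := by linear_combination (u' / 2) * hc
      rwa [huu, mul_one] at this
    refine ⟨C (16 * u) * X ^ (2 * M - q) * (X ^ q + C (2 * u')), ?_⟩
    have e2 : C (16 * u) * C c = (C 8 : K[X]) := by
      rw [← Polynomial.C_mul]; congr 1; linear_combination 8 * hc
    have e3 : C (16 * u) * C (2 * u') = (C 32 : K[X]) := by
      rw [← Polynomial.C_mul]; congr 1; linear_combination 32 * huu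
    have e4 : C (16 * u) * (C c * C (2 * u')) = (C (16 * u') : K[X]) := by
      rw [← Polynomial.C_mul, ← Polynomial.C_mul]; congr 1
      rw [hc']
      linear_combination 16 * u' * huu
    have e7 : (C (40 : K) : K[X]) = C 8 + C 32 := by rw [← Polynomial.C_add]; congr 1; norm_num
    rw [e0]
    linear_combination (X ^ (2 * M - q) * X ^ q) * e7 - (X ^ (2 * M - q) * X ^ q) * e2
      - (X ^ (2 * M - q) * X ^ q) * e3 - X ^ (2 * M - q) * e4
  rcases hirr.dvd_or_dvd hdvd with h | h
  · right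
    exact key m q M hq hqM D E hDd hD hE hDE c hc h
  · left
    exact key m q M hq hqM E D hEd hE hD (by rw [mul_comm, hDE]) c hc h

end Pool.Agent.N449.SR
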