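import Pool.Agent.N449.SR.Engine3
import Pool.Agent.N449.SR.Sym3

/-!
# Sparse factors of `κ₁ ε ^ n + κ₀ + κ₂ ε ^ (-n)`
-/

set_option autoImplicit false
set_option maxHeartbeats 4000000

namespace Pool.Agent.N449.SR

open Finset Polynomial Pool.Agent.N449.SF Pool.Agent.N449.SQ QuadraticAlgebra

theorem main3 {a : ℤ} (ha : 1 ≤ a) (p : ℕ) (hp0 : 0 < p) (W d e : ℤ) (hde : d * e = W) (hd0 : d ≠ 0)
    (κ₁ κ₀ κ₂ : R a)
    (hsym : ∀ q M : ℕ, 0 < q → q ≤ M → ∀ D E : (R a)[X], D.natDegree ≤ 2 * M → E.natDegree ≤ 2 * M →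
      (∀ k ≤ 2 * M, star (D.coeff k) = -D.coeff (2 * M - k)) →
      (∀ k ≤ 2 * M, star (E.coeff k) = -E.coeff (2 * M - k)) →
      D * E = C (κ₁ * w a p) * X ^ (2 * M + q) + C κ₀ * X ^ (2 * M) + C (κ₂ * w a (-p)) * X ^ (2 * M - q) →
      (∃ z, D = C z * X ^ M) ∨ (∃ z, E = C z * X ^ M))
    (hW : dl a * dl a * (W : R a) = κ₁ * w a p + κ₀ + κ₂ * w a (-p))
    (S T : Finset ℕ) (c b : ℕ → R a) (hd : d = ∑ i ∈ S, (c i * w a i).im)
    (he : e = ∑ j ∈ T, (b j * w a j).im) (H : ℝ)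
    (hH : 4 * (∑ i ∈ S, hs a (c i)) * (∑ j ∈ T, hs a (b j)) + hs a κ₁ + hs a κ₀ + hs a κ₂ ≤ H)
    (hHe : eps a ≤ H)
    (hcon : H ^ ((8 * (T.card + 1)) ^ (S.card + 1)) < eps a ^ p) :
    ((d : R a) * dl a ∣ κ₁ ∧ (d : R a) * dl a ∣ κ₀) ∨
      ((e : R a) * dl a ∣ κ₁ ∧ (e : R a) * dl a ∣ κ₀) := by
  classical
  have hdom := isDomain ha
  have he0' := eps_pos a
  have he1 := one_lt_eps ha
  have hH1 : 1 ≤ H := he1.le.trans hHe
  set t : ℕ := (insert 0 T).card with ht
  have ht0 : 0 < t := Finset.card_pos.2 ⟨0, Finset.mem_insert_self _ _⟩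
  have htT : t ≤ T.card + 1 := Finset.card_insert_le _ _
  -- approximation
  obtain ⟨q, hq1, hqQ, hq⟩ := dirichlet p (8 * t) hp0 (by omega) (insert 0 S)
    (Finset.mem_insert_self _ _)
  have hqQ' : q ≤ (8 * t) ^ S.card := by
    refine hqQ.trans (Nat.pow_le_pow_right (by omega) ?_)
    have := Finset.card_insert_le 0 S
    omega
  have hq' : ∀ i : ℕ, ∃ α : ℤ, i ∈ S → ((8 * t : ℕ) : ℤ) * |(q : ℤ) * i - α * p| < p := by
    intro i
    by_cases hi : i ∈ S
    · obtain ⟨α, hα⟩ := hq i (Finset.mem_insert_of_mem hi)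
      exact ⟨α, fun _ => hα⟩
    · exact ⟨0, fun h => absurd h hi⟩
  choose α hα using hq'
  have hβ' : ∀ j : ℕ, ∃ β : ℤ, 2 * |(q : ℤ) * j - β * p| ≤ p := by
    intro j
    refine ⟨(2 * (q * j) + p) / (2 * p), ?_⟩
    have hpos : (0 : ℤ) < 2 * p := by positivity
    have e1 := Int.emod_add_mul_ediv (2 * ((q : ℤ) * j) + p) (2 * p)
    have e2 := Int.emod_nonneg (2 * ((q : ℤ) * j) + p) hpos.ne'
    have e3 := Int.emod_lt_of_pos (2 * ((q : ℤ) * j) + p) hpos
    set z := (2 * ((q : ℤ) * j) + p) / (2 * p)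
    rw [← abs_of_pos (by norm_num : (0 : ℤ) < 2), ← abs_mul, abs_le]
    constructor <;> nlinarith
  choose β₀ hβ₀ using hβ'
  set β : ℕ → ℤ := fun j => if j = 0 then 0 else β₀ j with hβdef
  have hβ : ∀ j, 2 * |(q : ℤ) * j - β j * p| ≤ p := by
    intro j
    by_cases hj : j = 0
    · subst hj; simp [hβdef]
    · simpa [hβdef, hj] using hβ₀ j
  obtain ⟨k, hkt, hk⟩ := threshold p t (insert 0 T) ht.symm (Finset.mem_insert_self _ _)
    (fun j => |(q : ℤ) * j - β j * p|) (by simp [hβdef])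
  clear_value t β
  -- `q < p`
  have hexp : ∀ q', q' ≤ (8 * t) ^ S.card → (H ^ 2) ^ (4 * t * q') ≤ H ^ ((8 * (T.card + 1)) ^ (S.card + 1)) := by
    intro q' hq'
    rw [← pow_mul]
    refine pow_le_pow_right₀ hH1 ?_
    calc 2 * (4 * t * q') = 8 * t * q' := by ring
      _ ≤ 8 * t * (8 * t) ^ S.card := Nat.mul_le_mul_left _ hq'
      _ = (8 * t) ^ (S.card + 1) := by rw [pow_succ]; ring
      _ ≤ (8 * (T.card + 1)) ^ (S.card + 1) := Nat.pow_le_pow_left (by omega) _
  have hcon' : (H ^ 2) ^ (4 * t * q) < eps a ^ p := lt_of_le_of_lt (hexp q hqQ') hcon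
  -- the symmetric families
  obtain ⟨x, hxf, hxt⟩ : ∃ x : ℕ × Bool → ℤ, (∀ i, x (i, false) = i) ∧ (∀ i, x (i, true) = -i) :=
    ⟨fun u => if u.2 then -(u.1 : ℤ) else u.1, fun _ => rfl, fun _ => rfl⟩
  obtain ⟨A, hAf, hAt⟩ : ∃ A : ℕ × Bool → ℤ, (∀ i, A (i, false) = α i) ∧ (∀ i, A (i, true) = -α i) :=
    ⟨fun u => if u.2 then -α u.1 else α u.1, fun _ => rfl, fun _ => rfl⟩
  obtain ⟨B, hBf, hBt⟩ : ∃ B : ℕ × Bool → ℤ, (∀ i, B (i, false) = β i) ∧ (∀ i, B (i, true) = -β i) :=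
    ⟨fun u => if u.2 then -β u.1 else β u.1, fun _ => rfl, fun _ => rfl⟩
  obtain ⟨cc, hcf, hct⟩ : ∃ cc : ℕ × Bool → R a, (∀ i, cc (i, false) = c i) ∧
      (∀ i, cc (i, true) = -((-1) ^ i * star (c i))) :=
    ⟨fun u => if u.2 then -((-1) ^ u.1 * star (c u.1)) else c u.1, fun _ => rfl, fun _ => rfl⟩
  obtain ⟨bb, hbf, hbt⟩ : ∃ bb : ℕ × Bool → R a, (∀ i, bb (i, false) = b i) ∧
      (∀ i, bb (i, true) = -((-1) ^ i * star (b i))) :=
    ⟨fun u => if u.2 then -((-1) ^ u.1 * star (b u.1)) else b u.1, fun _ => rfl, fun _ => rfl⟩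
  have hcs : ∀ i, cc (i, true) * w a (x (i, true)) = -star (c i * w a i) := by
    intro i
    rw [hct, hxt, star_mul', star_w]
    ring
  have hbs : ∀ i, bb (i, true) * w a (x (i, true)) = -star (b i * w a i) := by
    intro i
    rw [hbt, hxt, star_mul', star_w]
    ring
  have hpm : ∀ (i : ℕ) (z : R a), hs a (-((-1) ^ i * z)) = hs a z := by
    intro i z
    rw [hs_neg]
    rcases neg_one_pow_eq_or (R a) i with h | h
    · rw [h, one_mul]
    · rw [h, neg_one_mul, hs_neg]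
  have hDsum : ∑ u ∈ S ×ˢ (Finset.univ : Finset Bool), cc u * w a (x u) = (d : R a) * dl a := by
    rw [Finset.sum_product]
    simp only [Fintype.sum_bool, hcs, hcf, hxf]
    rw [hd]
    push_cast
    rw [Finset.sum_mul]
    refine Finset.sum_congr rfl fun i _ => ?_
    rw [← sub_star']
    ring
  have hEsum : ∑ u ∈ T ×ˢ (Finset.univ : Finset Bool), bb u * w a (x u) = (e : R a) * dl a := by
    rw [Finset.sum_product]
    simp only [Fintype.sum_bool, hbs, hbf, hxf]
    rw [he]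
    push_cast
    rw [Finset.sum_mul]
    refine Finset.sum_congr rfl fun i _ => ?_
    rw [← sub_star']
    ring
  have hsumDE : (∑ u ∈ S ×ˢ (Finset.univ : Finset Bool), cc u * w a (x u)) *
      (∑ u ∈ T ×ˢ (Finset.univ : Finset Bool), bb u * w a (x u)) = κ₁ * w a p + κ₀ + κ₂ * w a (-p) := by
    rw [hDsum, hEsum, ← hW, ← hde]
    push_cast
    ring
  have hhc : ∑ u ∈ S ×ˢ (Finset.univ : Finset Bool), hs a (cc u) = 2 * ∑ i ∈ S, hs a (c i) := by
    rw [Finset.sum_product, Finset.mul_sum]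
    refine Finset.sum_congr rfl fun i _ => ?_
    rw [Fintype.sum_bool, hcf, hct, hpm, hs_star]
    ring
  have hhb : ∑ u ∈ T ×ˢ (Finset.univ : Finset Bool), hs a (bb u) = 2 * ∑ i ∈ T, hs a (b i) := by
    rw [Finset.sum_product, Finset.mul_sum]
    refine Finset.sum_congr rfl fun i _ => ?_
    rw [Fintype.sum_bool, hbf, hbt, hpm, hs_star]
    ring
  have habs : ∀ (i : ℕ) (z : ℤ), |(q : ℤ) * -(i : ℤ) - -z * p| = |(q : ℤ) * i - z * p| := by
    intro i z
    rw [← abs_neg]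
    congr 1
    ring
  have heng := engine3 ha p q t k hp0 hq1 hkt (S ×ˢ (Finset.univ : Finset Bool))
    (T ×ˢ (Finset.univ : Finset Bool)) x x cc bb A B
    (by
      rintro ⟨i, bo⟩ hi
      have hi' := (Finset.mem_product.1 hi).1
      cases bo
      · rw [hxf, hAf]; exact hα i hi'
      · rw [hxt, hAt, habs]; exact hα i hi')
    (by
      rintro ⟨j, bo⟩ hj
      cases bo
      · rw [hxf, hBf]; exact hβ j
      · rw [hxt, hBt, habs]; exact hβ j)
    (by
      rintro ⟨j, bo⟩ hj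
      have hj' := (Finset.mem_product.1 hj).1
      cases bo
      · rw [hxf, hBf]; exact hk j (Finset.mem_insert_of_mem hj')
      · rw [hxt, hBt, habs]; exact hk j (Finset.mem_insert_of_mem hj'))
    κ₁ κ₀ κ₂ hsumDE H
    (by rw [hhc, hhb]; linarith)
    hcon'
  -- the near terms
  set T' : Finset ℕ := T.filter (fun j => 2 * t * |(q : ℤ) * j - β j * p| ≤ k * p) with hT'
  have hJ' : (T ×ˢ (Finset.univ : Finset Bool)).filter
      (fun j => 2 * t * |(q : ℤ) * x j - B j * p| ≤ k * p) = T' ×ˢ (Finset.univ : Finset Bool) := by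
    ext ⟨j, bo⟩
    rw [Finset.mem_filter, Finset.mem_product, Finset.mem_product, hT', Finset.mem_filter]
    cases bo
    · rw [hxf, hBf]; simp
    · rw [hxt, hBt, habs]; simp
  rw [hJ'] at heng
  -- the polynomials
  obtain ⟨M, hMα, hMβ, hMq⟩ : ∃ M : ℕ, (∀ i ∈ S, |α i| ≤ M) ∧ (∀ j ∈ T', |β j| ≤ M) ∧ q ≤ M := by
    have h1 : 0 ≤ ∑ i ∈ S, |α i| := Finset.sum_nonneg fun _ _ => abs_nonneg _
    have h2 : 0 ≤ ∑ j ∈ T', |β j| := Finset.sum_nonneg fun _ _ => abs_nonneg _
    refine ⟨(∑ i ∈ S, |α i|).toNat + (∑ j ∈ T', |β j|).toNat + q, ?_, ?_, by omega⟩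
    · intro i hi
      have := Finset.single_le_sum (f := fun i => |α i|) (fun _ _ => abs_nonneg _) hi
      omega
    · intro j hj
      have := Finset.single_le_sum (f := fun i => |β i|) (fun _ _ => abs_nonneg _) hj
      omega
  -- a general construction
  obtain ⟨poly, hpoly⟩ : ∃ poly : Finset ℕ → (ℕ × Bool → R a) → (ℕ × Bool → ℤ) → (R a)[X],
      ∀ S' f g, poly S' f g = ∑ u ∈ S' ×ˢ (Finset.univ : Finset Bool),
        C (f u * w a (x u)) * X ^ (g u + M).toNat := ⟨_, fun _ _ _ => rfl⟩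
  have hcoeff : ∀ S' f g (n : ℕ), (poly S' f g).coeff n = ∑ u ∈ S' ×ˢ (Finset.univ : Finset Bool),
      if n = (g u + M).toNat then f u * w a (x u) else 0 := by
    intro S' f g n
    rw [hpoly, finsetSum_coeff]
    refine Finset.sum_congr rfl fun u _ => ?_
    rw [coeff_C_mul_X_pow]
  have hgen : ∀ (S' : Finset ℕ) (f : ℕ × Bool → R a) (f₀ : ℕ → R a) (g : ℕ × Bool → ℤ) (g₀ : ℕ → ℤ),
      (∀ i, f (i, true) * w a (x (i, true)) = -star (f₀ i * w a i)) →
      (∀ i, f (i, false) = f₀ i) → (∀ i, g (i, false) = g₀ i) → (∀ i, g (i, true) = -g₀ i) →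
      (∀ i ∈ S', |g₀ i| ≤ M) → (poly S' f g).natDegree ≤ 2 * M ∧
      ∀ n ≤ 2 * M, star ((poly S' f g).coeff n) = -(poly S' f g).coeff (2 * M - n) := by
    intro S' f f₀ g g₀ h1 h2 h3 h4 h5
    constructor
    · rw [natDegree_le_iff_coeff_eq_zero]
      intro n hn
      rw [hcoeff]
      refine Finset.sum_eq_zero fun u hu => ?_
      have hu' := (Finset.mem_product.1 hu).1
      rw [if_neg]
      rcases u with ⟨i, bo⟩
      have := abs_le.1 (h5 i hu')
      cases bo
      · rw [h3]; omega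
      · rw [h4]; omega
    · intro n hn
      rw [hcoeff, hcoeff, Finset.sum_product, Finset.sum_product, star_sum, ← Finset.sum_neg_distrib]
      refine Finset.sum_congr rfl fun i hi => ?_
      have := abs_le.1 (h5 i hi)
      rw [Fintype.sum_bool, Fintype.sum_bool, h1, h2, h3, h4, hxf, star_add]
      have g1 : (n = (-g₀ i + M).toNat) ↔ (2 * M - n = (g₀ i + M).toNat) := by omega
      have g2 : (n = (g₀ i + M).toNat) ↔ (2 * M - n = (-g₀ i + M).toNat) := by omega
      simp only [g1, g2]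
      split_ifs <;> simp
  obtain ⟨hDd, hDs⟩ := hgen S cc c A α hcs hcf hAf hAt hMα
  obtain ⟨hEd, hEs⟩ := hgen T' bb b B β hbs hbf hBf hBt hMβ
  set D := poly S cc A with hD
  set E := poly T' bb B with hE
  have hDE : D * E = C (κ₁ * w a p) * X ^ (2 * M + q) + C κ₀ * X ^ (2 * M)
      + C (κ₂ * w a (-p)) * X ^ (2 * M - q) := by
    ext1 n
    rw [coeff_add, coeff_add, coeff_C_mul_X_pow, coeff_C_mul_X_pow, coeff_C_mul_X_pow]
    have h1 := heng ((n : ℤ) - 2 * M)
    have e1 : (D * E).coeff n = ∑ uv ∈ (S ×ˢ (Finset.univ : Finset Bool)) ×ˢ (T' ×ˢ (Finset.univ : Finset Bool)),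
        (if A uv.1 + B uv.2 = (n : ℤ) - 2 * M then
          cc uv.1 * w a (x uv.1) * (bb uv.2 * w a (x uv.2)) else 0) := by
      rw [hD, hE, hpoly, hpoly, Finset.sum_mul_sum, Finset.sum_product
        (s := S ×ˢ (Finset.univ : Finset Bool)) (t := T' ×ˢ (Finset.univ : Finset Bool)), finsetSum_coeff]
      refine Finset.sum_congr rfl fun u hu => ?_
      rw [finsetSum_coeff]
      refine Finset.sum_congr rfl fun v hv => ?_
      have hu' := (Finset.mem_product.1 hu).1
      have hv' := (Finset.mem_product.1 hv).1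
      have e2 : C (cc u * w a (x u)) * X ^ (A u + M).toNat * (C (bb v * w a (x v)) * X ^ (B v + M).toNat)
          = C (cc u * w a (x u) * (bb v * w a (x v))) * X ^ ((A u + M).toNat + (B v + M).toNat) := by
        rw [pow_add]
        simp only [Polynomial.C_mul]
        ring
      rw [e2, coeff_C_mul_X_pow]
      have e3 : (n = (A u + M).toNat + (B v + M).toNat) ↔ (A u + B v = (n : ℤ) - 2 * M) := by
        have h2 : |A u| ≤ M := by
          rcases u with ⟨i, bo⟩
          cases bo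
          · rw [hAf]; exact hMα i hu'
          · rw [hAt, abs_neg]; exact hMα i hu'
        have h3 : |B v| ≤ M := by
          rcases v with ⟨i, bo⟩
          cases bo
          · rw [hBf]; exact hMβ i hv'
          · rw [hBt, abs_neg]; exact hMβ i hv'
        have h4 := abs_le.1 h2
        have h5 := abs_le.1 h3
        omega
      simp only [e3]
    rw [e1, h1]
    have e4 : ((n : ℤ) - 2 * M = q) ↔ (n = 2 * M + q) := by omega
    have e5 : ((n : ℤ) - 2 * M = -q) ↔ (n = 2 * M - q) := by omega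
    have e6 : ((n : ℤ) - 2 * M = 0) ↔ (n = 2 * M) := by omega
    simp only [e4, e5, e6]
  have hD1 : D.eval 1 = (d : R a) * dl a := by
    rw [hD, hpoly, eval_finsetSum, ← hDsum]
    simp
  have hDne : (d : R a) * dl a ≠ 0 := by
    refine mul_ne_zero ?_ ?_
    · intro h
      have := congrArg QuadraticAlgebra.re h
      simp at this
      exact hd0 this
    · intro h
      have := congrArg QuadraticAlgebra.im h
      simp [dl] at this
  have hE1 : E.eval 1 = (e : R a) * dl a := by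
    have h1 : D.eval 1 * E.eval 1 = κ₁ * w a p + κ₀ + κ₂ * w a (-p) := by
      rw [← eval_mul, hDE]
      simp
    rw [hD1, ← hsumDE, hDsum, hEsum] at h1
    exact mul_left_cancel₀ hDne h1
  have hwu : κ₁ * w a p * w a (-p) = κ₁ := by
    rw [mul_assoc, ← w_add, add_neg_cancel, w_zero, mul_one]
  have hkey : ∀ F G : (R a)[X], F * G = D * E → ∀ z, F = C z * X ^ M → z ∣ κ₁ ∧ z ∣ κ₀ := by
    intro F G hFG z hz
    constructor
    · have h1 := congrArg (fun f => f.coeff (2 * M + q)) hFG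
      rw [hz, hDE, coeff_add, coeff_add, coeff_C_mul_X_pow, coeff_C_mul_X_pow, coeff_C_mul_X_pow,
        if_pos rfl, if_neg (by omega), if_neg (by omega), add_zero, add_zero, mul_assoc,
        coeff_C_mul] at h1
      rw [← hwu, ← h1, mul_assoc]
      exact dvd_mul_right _ _
    · have h1 := congrArg (fun f => f.coeff (2 * M)) hFG
      rw [hz, hDE, coeff_add, coeff_add, coeff_C_mul_X_pow, coeff_C_mul_X_pow, coeff_C_mul_X_pow,
        if_neg (by omega), if_pos rfl, if_neg (by omega), add_zero, zero_add, mul_assoc,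
        coeff_C_mul] at h1
      rw [← h1]
      exact dvd_mul_right _ _
  rcases hsym q M hq1 (by omega) D E hDd hEd hDs hEs hDE with
    ⟨z, hz⟩ | ⟨z, hz⟩
  · left
    have h1 : z = (d : R a) * dl a := by
      rw [← hD1, hz]; simp
    rw [← h1]
    exact hkey D E rfl z hz
  · right
    have h1 : z = (e : R a) * dl a := by
      rw [← hE1, hz]; simp
    rw [← h1]
    exact hkey E D (mul_comm _ _) z hz

end Pool.Agent.N449.SR
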